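import Pool.Agent.Y145.DI.Stick
import Pool.Agent.H916T.Defs

/-!
# Products of Gauss sums which are powers of `q` (up to roots of unity) and Tate characters
-/

set_option autoImplicit false
set_option linter.unusedSectionVars false

namespace Pool.Agent.N214.HB

open Finset Pool.Agent.Y145.DI Pool.Agent.H916T

section lift

variable {k : Type} [Field k] [Fintype k]

lemma chi_alg (χ : MulChar k ℂ) (x : k) : χ x ∈ algebraicClosure ℚ ℂ := by
  rw [mem_algebraicClosure_iff]
  by_cases hx : x = 0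
  · rw [hx, MulChar.map_zero]
    exact isAlgebraic_zero
  · have h1 : (χ x) ^ (Fintype.card k - 1) = 1 := by
      rw [← map_pow, FiniteField.pow_card_sub_one_eq_one x hx, map_one]
    have h2 : 0 < Fintype.card k - 1 := by
      have : 1 < Fintype.card k := Fintype.one_lt_card
      omega
    exact IsAlgebraic.of_pow h2 (h1 ▸ isAlgebraic_one)

lemma psi_alg (ψ : AddChar k ℂ) (x : k) : ψ x ∈ algebraicClosure ℚ ℂ := by
  rw [mem_algebraicClosure_iff]
  have h1 : (ψ x) ^ Fintype.card k = 1 := by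
    rw [← AddChar.map_nsmul_eq_pow, card_nsmul_eq_zero, AddChar.map_zero_eq_one]
  exact IsAlgebraic.of_pow Fintype.card_pos (h1 ▸ isAlgebraic_one)

/-- a multiplicative character with values in the algebraic numbers -/
noncomputable def liftChi (χ : MulChar k ℂ) : MulChar k (algebraicClosure ℚ ℂ) where
  toFun x := ⟨χ x, chi_alg χ x⟩
  map_one' := Subtype.ext (map_one χ)
  map_mul' x y := Subtype.ext (map_mul χ x y)
  map_nonunit' x hx := Subtype.ext (χ.map_nonunit hx)

/-- an additive character with values in the algebraic numbers -/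
noncomputable def liftPsi (ψ : AddChar k ℂ) : AddChar k (algebraicClosure ℚ ℂ) where
  toFun x := ⟨ψ x, psi_alg ψ x⟩
  map_zero_eq_one' := Subtype.ext ψ.map_zero_eq_one
  map_add_eq_mul' x y := Subtype.ext (ψ.map_add_eq_mul x y)

lemma coe_liftChi (χ : MulChar k ℂ) (x : k) : ((liftChi χ x : algebraicClosure ℚ ℂ) : ℂ) = χ x :=
  rfl

lemma coe_liftPsi (ψ : AddChar k ℂ) (x : k) : ((liftPsi ψ x : algebraicClosure ℚ ℂ) : ℂ) = ψ x :=
  rfl

lemma liftChi_pow (χ : MulChar k ℂ) (n : ℕ) : liftChi (χ ^ n) = liftChi χ ^ n := by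
  ext x
  rw [coe_liftChi, MulChar.pow_apply_coe, MulChar.pow_apply_coe]
  rfl

lemma coe_gauss (χ : MulChar k ℂ) (ψ : AddChar k ℂ) :
    ((gaussSum (liftChi χ) (liftPsi ψ) : algebraicClosure ℚ ℂ) : ℂ) = gaussSum χ ψ := by
  simp only [gaussSum]
  push_cast
  rfl

lemma map_gauss {A B : Type} [Field A] [Field B] (σ : A →+* B) (χ : MulChar k A)
    (ψ : AddChar k A) : σ (gaussSum χ ψ)
      = gaussSum (χ.ringHomComp σ) ((σ : A →* B).compAddChar ψ) := by
  simp only [gaussSum, map_sum, map_mul]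
  rfl

/-- every additive character is a shift of a primitive one -/
lemma exists_shift {B : Type} [Field B] [CharZero B] {ψ ψ' : AddChar k B} (hψ : ψ.IsPrimitive) :
    ∃ c : k, ψ' = ψ.mulShift c := by
  classical
  by_contra hcon
  push Not at hcon
  have h1 : ∀ c : k, ∑ x : k, ψ' x * (ψ (x * -c)) = 0 := by
    intro c
    have h2 : ψ' * ψ.mulShift (-c) ≠ 1 := by
      intro h3
      apply hcon c
      have h4 : ψ.mulShift c * ψ.mulShift (-c) = 1 := by
        rw [AddChar.mulShift_mul, add_neg_cancel, AddChar.mulShift_zero]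
      have h5 := h3.trans h4.symm
      exact mul_right_cancel h5
    have h3 := AddChar.sum_eq_zero_of_ne_one h2
    rw [← h3]
    refine Finset.sum_congr rfl fun x _ => ?_
    rw [AddChar.mul_apply, AddChar.mulShift_apply, mul_comm x]
  have h2 : ∑ c : k, ∑ x : k, ψ' x * (ψ (x * -c)) = 0 :=
    Finset.sum_eq_zero fun c _ => h1 c
  rw [Finset.sum_comm] at h2
  have h3 : ∀ x : k, ∑ c : k, ψ' x * (ψ (x * -c)) = if x = 0 then (Fintype.card k : B) else 0 := by
    intro x
    rw [← Finset.mul_sum]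
    have h4 := AddChar.sum_mulShift (-x) hψ
    have h5 : ∑ c : k, ψ (x * -c) = ∑ c : k, ψ (c * -x) := by
      refine Finset.sum_congr rfl fun c _ => ?_
      congr 1
      ring
    rw [h5, h4]
    by_cases hx : x = 0
    · simp [hx]
    · simp [hx]
  simp only [h3, Finset.sum_ite_eq', Finset.mem_univ, if_true] at h2
  exact Fintype.card_ne_zero (by exact_mod_cast h2)

lemma norm_gauss_shift {p : ℕ} [Fact p.Prime] (χ : MulChar k (PadicAlgCl p))
    (ψ : AddChar k (PadicAlgCl p)) {c : k} (hc : c ≠ 0) :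
    ‖gaussSum χ (ψ.mulShift c)‖ = ‖gaussSum χ ψ‖ := by
  have h1 := gaussSum_mulShift_eq χ ψ (Units.mk0 c hc)
  rw [Units.val_mk0] at h1
  rw [h1, norm_mul]
  have h2 : (χ⁻¹ c) ^ (Fintype.card k - 1) = 1 := by
    rw [← map_pow, FiniteField.pow_card_sub_one_eq_one c hc, map_one]
  have h3 : 0 < Fintype.card k - 1 := by
    have : 1 < Fintype.card k := Fintype.one_lt_card
    omega
  have h4 := congrArg norm h2
  rw [norm_pow, norm_one] at h4
  rw [(pow_eq_one_iff_of_nonneg (norm_nonneg _) h3.ne').1 h4, one_mul]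

end lift

/-- sums of periodic functions -/
lemma sum_periodic {f : ℕ} (h : ℕ → ℕ) (hper : ∀ s, h (s + f) = h s) (n : ℕ) :
    ∑ s ∈ range (n * f), h s = n * ∑ s ∈ range f, h s := by
  have hper' : ∀ n s, h (n * f + s) = h s := by
    intro n
    induction n with
    | zero => intro s; rw [zero_mul, zero_add]
    | succ n ih =>
      intro s
      rw [Nat.succ_mul, add_right_comm, hper, ih]
  induction n with
  | zero => simp
  | succ n ih =>
    rw [Nat.succ_mul, Finset.sum_range_add, ih, Nat.succ_mul]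
    congr 1
    exact Finset.sum_congr rfl fun s _ => hper' n s

section main

variable {k : Type} [Field k] [Fintype k] {p m : ℕ} [Fact p.Prime] [CharP k p] [NeZero m]

/-- the embedding with prescribed value -/
lemma exists_sigma {θ : MulChar k ℂ} (hθ : orderOf θ = m) {g : kˣ}
    (hg : ∀ x : kˣ, x ∈ Subgroup.zpowers g) {z : PadicAlgCl p} (hz : IsPrimitiveRoot z m) :
    ∃ σ : algebraicClosure ℚ ℂ →+* PadicAlgCl p, σ (liftChi θ g) = z := by
  have hm : 0 < m := Nat.pos_of_ne_zero (NeZero.ne m)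
  have h1 : IsPrimitiveRoot (liftChi θ (g : k)) m := by
    refine IsPrimitiveRoot.mk_of_lt _ hm ?_ ?_
    · have h2 : θ ^ m = 1 := by rw [← hθ, pow_orderOf_eq_one]
      apply Subtype.ext
      have h3 : (θ ^ m) (g : k) = 1 := by rw [h2, MulChar.one_apply_coe]
      rw [MulChar.pow_apply_coe] at h3
      exact h3
    · intro l hl0 hl h2
      have h3 : θ ^ l = 1 := by
        ext x
        obtain ⟨j, hj⟩ := Subgroup.mem_zpowers_iff.1 (hg x)
        rw [MulChar.one_apply_coe, MulChar.pow_apply_coe]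
        have h4 : (θ (g : k)) ^ l = 1 := congrArg Subtype.val h2
        have h5 : (MulChar.equivToUnitHom θ g) ^ l = 1 := by
          apply Units.ext
          rw [Units.val_pow_eq_pow_val, MulChar.coe_equivToUnitHom, h4, Units.val_one]
        have h6 : (MulChar.equivToUnitHom θ x) ^ l = 1 := by
          rw [← hj, map_zpow, ← zpow_natCast, ← zpow_mul, mul_comm, zpow_mul, zpow_natCast, h5,
            one_zpow]
        have h7 := congrArg Units.val h6
        rw [Units.val_pow_eq_pow_val, MulChar.coe_equivToUnitHom, Units.val_one] at h7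
        exact h7
      exact absurd (orderOf_le_of_pow_eq_one hl0 h3) (by omega)
  have h2 : Polynomial.aeval z (minpoly ℚ (liftChi θ (g : k))) = 0 := by
    rw [← Polynomial.cyclotomic_eq_minpoly_rat h1 hm, Polynomial.cyclotomic_eq_minpoly_rat hz hm]
    exact minpoly.aeval _ _
  have : Algebra.IsAlgebraic ℚ (algebraicClosure ℚ ℂ) := algebraicClosure.isAlgebraic ℚ ℂ
  obtain ⟨φ, hφ⟩ := IntermediateField.exists_algHom_of_splits_of_aeval
    (F := ℚ) (E := algebraicClosure ℚ ℂ) (K := PadicAlgCl p)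
    (fun x => ⟨Algebra.IsIntegral.isIntegral x, IsAlgClosed.splits _⟩) h2
  exact ⟨φ.toRingHom, hφ⟩

lemma mulChar_ext_gen {B : Type} [Field B] {g : kˣ} (hg : ∀ x : kˣ, x ∈ Subgroup.zpowers g)
    {χ χ' : MulChar k B} (h : χ g = χ' g) : χ = χ' := by
  ext x
  obtain ⟨j, hj⟩ := Subgroup.mem_zpowers_iff.1 (hg x)
  have h5 : MulChar.equivToUnitHom χ g = MulChar.equivToUnitHom χ' g := by
    apply Units.ext
    rw [MulChar.coe_equivToUnitHom, MulChar.coe_equivToUnitHom, h]
  have h6 : MulChar.equivToUnitHom χ x = MulChar.equivToUnitHom χ' x := by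
    rw [← hj, map_zpow, map_zpow, h5]
  have h7 := congrArg Units.val h6
  rwa [MulChar.coe_equivToUnitHom, MulChar.coe_equivToUnitHom] at h7

/-- **Stickelberger's theorem for products of Gauss sums.** If a power of the product of the Gauss
sums of the characters `θ ^ a`, `a ∈ s`, is the same power of `q ^ (|s| / 2)`, then `s` is a Tate
character. -/
theorem isTate_of_gauss (hmk : m ∣ Fintype.card k - 1) (θ : MulChar k ℂ) (hθ : orderOf θ = m)
    (ψ : AddChar k ℂ) (hψ : ψ ≠ 1) (s : Multiset (ZMod m)) (h0 : (0 : ZMod m) ∉ s)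
    (hsum : s.sum = 0) (c : ℕ) (hc : Multiset.card s = 2 * c) (e : ℕ) (he : 0 < e)
    (h : ((s.map fun a => gaussSum (θ ^ a.val) ψ).prod) ^ e = ((Fintype.card k : ℂ) ^ c) ^ e) :
    IsTate p m s := by
  classical
  have hm : 0 < m := Nat.pos_of_ne_zero (NeZero.ne m)
  obtain ⟨w, ψp, hψp, hψc, hw, ho⟩ := exists_wp (p := p) k
  obtain ⟨F, hpr, hcard⟩ := FiniteField.card k p
  set T : MulChar k (PadicAlgCl p) := w ^ ((Fintype.card k - 1) / m) with hT
  obtain ⟨g, hg⟩ := IsCyclic.exists_generator (α := kˣ)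
  have hTo : orderOf T = m := by
    have hQ1 : 1 < Fintype.card k := Fintype.one_lt_card
    have hd : (Fintype.card k - 1) / m ≠ 0 := by
      have := Nat.div_pos (Nat.le_of_dvd (by omega) hmk) hm
      omega
    rw [hT, orderOf_pow_of_dvd hd (by rw [ho]; exact Nat.div_dvd_of_dvd hmk), ho,
      Nat.div_div_self hmk (by omega)]
  have hTm : T ^ m = 1 := by rw [← hTo, pow_orderOf_eq_one]
  -- the value at the generator is a primitive root
  have hTg : IsPrimitiveRoot (T (g : k)) m := by
    refine IsPrimitiveRoot.mk_of_lt _ hm ?_ ?_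
    · rw [← MulChar.pow_apply_coe, hTm, MulChar.one_apply_coe]
    · intro l hl0 hl h2
      have h3 : T ^ l = 1 := by
        apply mulChar_ext_gen hg
        rw [MulChar.pow_apply_coe, h2, MulChar.one_apply_coe]
      exact absurd (orderOf_le_of_pow_eq_one hl0 h3) (by omega)
  have hpm : Nat.Coprime p m := by
    rw [Nat.Prime.coprime_iff_not_dvd hpr]
    intro h1
    have h2 : p ∣ Fintype.card k - 1 := h1.trans hmk
    have h3 : p ∣ Fintype.card k := by
      rw [hcard]
      exact dvd_pow_self p F.pos.ne'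
    have hQ1 : 1 < Fintype.card k := Fintype.one_lt_card
    have h10 : p ∣ 1 := (Nat.dvd_sub_iff_right hQ1.le h3).1 h2
    exact hpr.one_lt.ne' (Nat.dvd_one.1 h10)
  obtain ⟨n, hn⟩ : orderOf (p : ZMod m) ∣ (F : ℕ) := by
    apply orderOf_dvd_of_pow_eq_one
    have h1 : ((Fintype.card k - 1 : ℕ) : ZMod m) = 0 := (ZMod.natCast_eq_zero_iff _ _).2 hmk
    rw [Nat.cast_sub Fintype.card_pos, hcard, sub_eq_zero] at h1
    push_cast at h1
    exact h1
  have hn0 : 0 < n := by
    rcases Nat.eq_zero_or_pos n with h1 | h1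
    · rw [h1, mul_zero] at hn
      exact absurd hn F.pos.ne'
    · exact h1
  refine ⟨h0, ⟨c, by omega⟩, hsum, fun t => ?_⟩
  -- the embedding
  set τ := (t : ZMod m).val with hτ
  have hz : IsPrimitiveRoot ((T (g : k))⁻¹ ^ τ) m :=
    hTg.inv.pow_of_coprime τ (ZMod.val_coe_unit_coprime t)
  obtain ⟨σ, hσ⟩ := exists_sigma (p := p) hθ hg hz
  set ψs : AddChar k (PadicAlgCl p) := (σ : _ →* PadicAlgCl p).compAddChar (liftPsi ψ) with hψs
  obtain ⟨c0, hc0⟩ := exists_shift (ψ' := ψs) hψp
  have hc00 : c0 ≠ 0 := by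
    rintro rfl
    rw [AddChar.mulShift_zero] at hc0
    apply hψ
    ext x
    have h1 : σ (liftPsi ψ x) = 1 := by
      have := congrArg (fun f : AddChar k (PadicAlgCl p) => f x) hc0
      simpa [hψs] using this
    have h2 : liftPsi ψ x = 1 := σ.injective (h1.trans (map_one σ).symm)
    exact congrArg Subtype.val h2
  have hchi : (liftChi θ).ringHomComp σ = (T ^ τ)⁻¹ := by
    apply mulChar_ext_gen hg
    rw [MulChar.ringHomComp_apply, hσ, MulChar.inv_apply_eq_inv', inv_pow]
    congr 1
    exact (MulChar.pow_apply_coe T τ g).symm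
  have hgs : ∀ a : ZMod m, σ (gaussSum (liftChi (θ ^ a.val)) (liftPsi ψ))
      = gaussSum ((T ^ ((t : ZMod m) * a).val)⁻¹) ψs := by
    intro a
    rw [map_gauss, liftChi_pow]
    congr 1
    rw [← MulChar.ringHomComp_pow, hchi, inv_pow, ← pow_mul]
    congr 1
    rw [pow_eq_pow_iff_modEq, hTo]
    rw [← ZMod.natCast_eq_natCast_iff]
    push_cast
    simp only [hτ, ZMod.natCast_zmod_val]
  -- the equation in the p-adic field
  have h1 : ((s.map fun a => gaussSum (liftChi (θ ^ a.val)) (liftPsi ψ)).prod) ^ e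
      = ((Fintype.card k : algebraicClosure ℚ ℂ) ^ c) ^ e := by
    apply (algebraicClosure ℚ ℂ).val.injective
    rw [map_pow, map_pow, map_pow, map_natCast, map_multiset_prod, Multiset.map_map, ← h]
    congr 2
    exact Multiset.map_congr rfl fun a _ => coe_gauss _ _
  have h3 : (s.map fun a => gaussSum ((T ^ ((t : ZMod m) * a).val)⁻¹) ψs).prod ^ e
      = ((Fintype.card k : PadicAlgCl p) ^ c) ^ e := by
    have h4 := congrArg σ h1
    rw [map_pow, map_pow, map_pow, map_natCast, map_multiset_prod, Multiset.map_map] at h4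
    rw [← h4]
    congr 2
    exact Multiset.map_congr rfl fun a _ => (hgs a).symm
  have h2 : (s.map fun a => ‖gaussSum ((T ^ ((t : ZMod m) * a).val)⁻¹) ψp‖).prod
      = ‖((p : ℕ) : PadicAlgCl p)‖ ^ ((F : ℕ) * c) := by
    have h4 := congrArg norm h3
    rw [norm_pow, norm_pow, norm_pow] at h4
    have h5 := (pow_left_inj₀ (norm_nonneg _) (by positivity) he.ne').1 h4
    have h6 : ‖(s.map fun a => gaussSum ((T ^ ((t : ZMod m) * a).val)⁻¹) ψs).prod‖
        = (s.map fun a => ‖gaussSum ((T ^ ((t : ZMod m) * a).val)⁻¹) ψs‖).prod :=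
      (map_multiset_prod (normHom : PadicAlgCl p →*₀ ℝ) _).trans (by rw [Multiset.map_map]; rfl)
    rw [h6] at h5
    have h7 : (s.map fun a => ‖gaussSum ((T ^ ((t : ZMod m) * a).val)⁻¹) ψp‖)
        = (s.map fun a => ‖gaussSum ((T ^ ((t : ZMod m) * a).val)⁻¹) ψs‖) :=
      Multiset.map_congr rfl fun a _ => by rw [hc0, norm_gauss_shift _ _ hc00]
    rw [h7, h5, hcard]
    push_cast
    rw [norm_pow, ← pow_mul]
  have h4 : ∀ a ∈ s, ‖gaussSum ((T ^ ((t : ZMod m) * a).val)⁻¹) ψp‖ ^ m
      = ‖((p : ℕ) : PadicAlgCl p)‖ ^ expo p m F (((t : ZMod m) * a).val) := by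
    intro a ha
    have ha0 : (t : ZMod m) * a ≠ 0 := by
      intro h5
      have h6 := (Units.mul_right_eq_zero t).1 h5
      exact h0 (h6 ▸ ha)
    exact norm_gauss_eq w ψp hψp hψc hw ho hcard hmk F.pos _
      (Nat.pos_of_ne_zero fun h5 => ha0 ((ZMod.val_eq_zero _).1 h5)) (ZMod.val_lt _)
  have h5 : (s.map fun a => expo p m F (((t : ZMod m) * a).val)).sum = (F : ℕ) * c * m := by
    have h6 := congrArg (fun x => x ^ m) h2
    simp only [← Multiset.prod_map_pow, ← pow_mul] at h6
    rw [Multiset.map_congr rfl h4] at h6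
    have h7 : ∀ (s' : Multiset (ZMod m)) (E : ZMod m → ℕ) (P : ℝ),
        (s'.map fun a => P ^ E a).prod = P ^ (s'.map E).sum := by
      intro s' E P
      induction s' using Multiset.induction_on with
      | empty => simp
      | cons a s' ih => simp only [Multiset.map_cons, Multiset.prod_cons, Multiset.sum_cons,
          pow_add, ih]
    rw [h7] at h6
    obtain ⟨hp0, hp1⟩ := norm_p_lt (p := p)
    exact pow_right_injective₀ hp0 hp1.ne h6
  have h6 : ∀ a : ZMod m, expo p m F (((t : ZMod m) * a).val)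
      = ∑ j ∈ range (n * orderOf (p : ZMod m)), ((p : ZMod m) ^ j * ((t : ZMod m) * a)).val := by
    intro a
    rw [expo, hn, mul_comm n]
    refine Finset.sum_congr rfl fun j _ => ?_
    rw [← ZMod.val_natCast]
    congr 1
    push_cast
    rw [ZMod.natCast_zmod_val, mul_comm]
  have h7 : (s.map fun a => ∑ j ∈ range (n * orderOf (p : ZMod m)),
      ((p : ZMod m) ^ j * ((t : ZMod m) * a)).val).sum
      = n * ∑ j ∈ range (orderOf (p : ZMod m)),
        (s.map fun a => ((p : ZMod m) ^ j * ((t : ZMod m) * a)).val).sum := by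
    rw [← sum_periodic (f := orderOf (p : ZMod m))
      (fun j => (s.map fun a => ((p : ZMod m) ^ j * ((t : ZMod m) * a)).val).sum)
      (fun j => by rw [pow_add, pow_orderOf_eq_one, mul_one]) n]
    exact Multiset.sum_map_sum_map _ _
  rw [Multiset.map_congr rfl fun a _ => h6 a, h7, hn] at h5
  have h8 : n * (2 * ∑ j ∈ range (orderOf (p : ZMod m)),
        (s.map fun a => ((p : ZMod m) ^ j * ((t : ZMod m) * a)).val).sum)
      = n * (orderOf (p : ZMod m) * (m * Multiset.card s)) := by
    rw [hc]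
    linarith
  exact Nat.eq_of_mul_eq_mul_left hn0 h8

end main

end Pool.Agent.N214.HB
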