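import Pool.Agent.N214.HB.Mellin
import Pool.Agent.N214.HB.Gauss

/-!
# The sums over all extensions of a finite field
-/

set_option autoImplicit false
set_option linter.unusedSectionVars false

namespace Pool.Agent.N214.HB

open Finset
open Pool.Agent.Y145.KS (psi psi_apply psi_ne_one)
open Pool.Agent.Y145.DW (hasse_davenport)

section

variable {k : Type} [Field k] [Fintype k]

/-- the character `χ ∘ N` of an extension -/
noncomputable def chE (χ : MulChar k ℂ) (E : Type) [Field E] [Finite E] [Algebra k E] :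
    MulChar E ℂ where
  toMonoidHom := χ.toMonoidHom.comp (Algebra.norm k)
  map_nonunit' := fun a ha => by
    have h1 : a = 0 := by
      by_contra h
      exact ha (isUnit_iff_ne_zero.2 h)
    have : Module.Finite k E := Module.Finite.of_finite
    show χ (Algebra.norm k a) = 0
    rw [h1, Algebra.norm_zero, MulChar.map_zero]

variable {E : Type} [Field E] [Finite E] [Algebra k E]

lemma chE_apply (χ : MulChar k ℂ) (x : E) : chE χ E x = χ (Algebra.norm k x) := rfl

lemma chE_one : chE (1 : MulChar k ℂ) E = 1 := by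
  have : Module.Finite k E := Module.Finite.of_finite
  ext x
  rw [chE_apply, MulChar.one_apply_coe, MulChar.one_apply]
  exact (Units.map (Algebra.norm k) x).isUnit

lemma chE_pow (χ : MulChar k ℂ) (n : ℕ) : chE χ E ^ n = chE (χ ^ n) E := by
  have : Module.Finite k E := Module.Finite.of_finite
  ext x
  rw [MulChar.pow_apply_coe, chE_apply, chE_apply]
  have h1 : IsUnit (Algebra.norm k (x : E)) := (Units.map (Algebra.norm k) x).isUnit
  obtain ⟨y, hy⟩ := h1
  rw [← hy, MulChar.pow_apply_coe]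

lemma chE_ne_one {χ : MulChar k ℂ} (h : χ ≠ 1) : chE χ E ≠ 1 := by
  have : Module.Finite k E := Module.Finite.of_finite
  intro h1
  apply h
  ext x
  obtain ⟨y, hy⟩ := FiniteField.norm_surjective k E (x : k)
  have hy0 : IsUnit y := by
    rw [isUnit_iff_ne_zero]
    rintro rfl
    rw [Algebra.norm_zero] at hy
    exact x.ne_zero hy.symm
  rw [← hy, ← chE_apply, h1, MulChar.one_apply hy0, hy, MulChar.one_apply_coe]

lemma orderOf_chE (χ : MulChar k ℂ) : orderOf (chE χ E) = orderOf χ := by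
  apply Nat.dvd_antisymm
  · apply orderOf_dvd_of_pow_eq_one
    rw [chE_pow, pow_orderOf_eq_one, chE_one]
  · apply orderOf_dvd_of_pow_eq_one
    by_contra h
    apply chE_ne_one (E := E) h
    rw [← chE_pow, pow_orderOf_eq_one]

lemma gauss_E [Fintype E] (χ : MulChar k ℂ) {ψ : AddChar k ℂ} (hψ : ψ ≠ 1) :
    gaussSum (chE χ E) (psi ψ E) =
      (-1) ^ (Module.finrank k E - 1) * gaussSum χ ψ ^ Module.finrank k E := by
  classical
  rw [← hasse_davenport (E := E) χ hψ]
  rfl

end

section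

variable {k : Type} [Field k] [Fintype k] {ι : Type} [Fintype ι] {m : ℕ} [NeZero m]

/-- The Jacobi sum `(∏ g(θ ^ (s i))) / q`. -/
noncomputable def js (θ : MulChar k ℂ) (ψ : AddChar k ℂ) (s : ι → ZMod m) : ℂ :=
  (∏ i, gaussSum (θ ^ (s i).val) ψ) / Fintype.card k

lemma pow_congr {F : Type} [Field F] [Fintype F] {χ : MulChar F ℂ} (hχ : orderOf χ = m) {a b : ℕ}
    (h : (a : ZMod m) = b) : χ ^ a = χ ^ b := by
  rw [pow_eq_pow_iff_modEq, hχ]
  exact (ZMod.natCast_eq_natCast_iff _ _ _).1 h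

lemma zpow_congr {F : Type} [Field F] [Fintype F] {χ : MulChar F ℂ} (hχ : orderOf χ = m) {a b : ℤ}
    (h : (a : ZMod m) = b) : χ ^ a = χ ^ b := by
  rw [zpow_eq_zpow_iff_modEq, hχ]
  exact (ZMod.intCast_eq_intCast_iff _ _ _).1 h

/-- the shifted residues -/
def shift (s : ι → ZMod m) (e : ι → ℤ) (d : ℕ) (j : ℕ) (i : ι) : ZMod m :=
  s i + (j : ZMod m) * ((m / d : ℕ) : ZMod m) * (e i : ZMod m)

/-- **The L-function.** -/
theorem sum_traces (hmk : m ∣ Fintype.card k - 1) (θ : MulChar k ℂ) (hθ : orderOf θ = m)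
    {ψ : AddChar k ℂ} (hψ : ψ ≠ 1) (s : ι → ZMod m) (hs : ∑ i, s i = 0) (e : ι → ℤ)
    (he : ∑ i, e i = 0) (hι : Even (Fintype.card ι)) {d : ℕ} (hd0 : 0 < d) (hd : d ∣ m)
    (hne : ∀ j < d, ∃ i, shift s e d j i ≠ 0)
    (E : Type) [Field E] [Fintype E] [DecidableEq E] [Algebra k E] :
    ∑ u : Eˣ, trAt (fun i => chE θ E ^ (s i).val) e (u ^ d)
      = -∑ j ∈ range d, js θ ψ (shift s e d j) ^ Module.finrank k E := by
  classical
  have : Module.Finite k E := Module.Finite.of_finite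
  have hm : 0 < m := Nat.pos_of_ne_zero (NeZero.ne m)
  have hcard : Fintype.card E = Fintype.card k ^ Module.finrank k E := Module.card_eq_pow_finrank
  have hr : 0 < Module.finrank k E := Module.finrank_pos
  have hθE : orderOf (chE θ E) = m := by rw [orderOf_chE, hθ]
  have hdE : d ∣ Fintype.card E - 1 := by
    rw [hcard]
    exact (hd.trans hmk).trans (Nat.sub_one_dvd_pow_sub_one _ _)
  have hρ : orderOf (chE θ E ^ (m / d)) = d := by
    rw [orderOf_pow_of_dvd (Nat.div_pos (Nat.le_of_dvd hm hd) hd0).ne'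
      (by rw [hθE]; exact Nat.div_dvd_of_dvd hd), hθE, Nat.div_div_self hd hm.ne']
  rw [sum_trAt _ e hd0 hdE _ hρ]
  congr 1
  refine Finset.sum_congr rfl fun j hj => ?_
  have h1 : (fun i => chE θ E ^ (s i).val * (chE θ E ^ (m / d)) ^ ((j : ℤ) * e i))
      = fun i => chE θ E ^ (shift s e d j i).val := by
    funext i
    rw [← zpow_natCast, ← zpow_natCast, ← zpow_natCast, ← zpow_mul, ← zpow_add]
    apply zpow_congr hθE
    simp only [Int.cast_add, Int.cast_mul, Int.cast_natCast, ZMod.natCast_zmod_val, shift]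
    ring
  rw [h1]
  have h2 : ∏ i, chE θ E ^ (shift s e d j i).val = 1 := by
    rw [Finset.prod_pow_eq_pow_sum]
    have h3 : ((∑ i, (shift s e d j i).val : ℕ) : ZMod m) = ((0 : ℕ) : ZMod m) := by
      push_cast
      simp only [ZMod.natCast_zmod_val, shift]
      rw [Finset.sum_add_distrib, hs, ← Finset.mul_sum, ← Int.cast_sum, he]
      simp
    rw [pow_congr hθE h3, pow_zero]
  have h3 : ∃ i, chE θ E ^ (shift s e d j i).val ≠ 1 := by
    obtain ⟨i, hi⟩ := hne j (Finset.mem_range.1 hj)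
    refine ⟨i, fun h4 => hi ?_⟩
    have h5 := orderOf_dvd_of_pow_eq_one h4
    rw [hθE] at h5
    have h6 := Nat.eq_zero_of_dvd_of_lt h5 (ZMod.val_lt _)
    exact (ZMod.val_eq_zero _).1 h6
  rw [jac_eq _ (psi_ne_one hψ E) h2 h3, js, div_pow, hcard]
  push_cast
  congr 1
  have h4 : ∀ i, gaussSum (chE θ E ^ (shift s e d j i).val) (psi ψ E)
      = (-1) ^ (Module.finrank k E - 1) *
        gaussSum (θ ^ (shift s e d j i).val) ψ ^ Module.finrank k E := by
    intro i
    rw [chE_pow, gauss_E _ hψ]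
  rw [Finset.prod_congr rfl fun i _ => h4 i, Finset.prod_mul_distrib, Finset.prod_const,
    Finset.card_univ, Finset.prod_pow]
  obtain ⟨c, hc⟩ := hι
  rw [hc, ← pow_mul, ← two_mul, mul_comm 2 c, ← mul_assoc, mul_comm _ 2, pow_mul]
  simp

/-- the absolute value of a Gauss sum -/
lemma norm_gauss_ne {χ : MulChar k ℂ} (hχ : χ ≠ 1) {ψ : AddChar k ℂ} (hψ : ψ ≠ 1) :
    ‖gaussSum χ ψ‖ ^ 2 = Fintype.card k := by
  have hp : ψ.IsPrimitive := AddChar.IsPrimitive.of_ne_one hψ
  have h1 := gaussSum_mul_gaussSum_eq_card hχ hp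
  have h2 : gaussSum χ⁻¹ ψ⁻¹ = (starRingEnd ℂ) (gaussSum χ ψ) := by
    simp only [gaussSum, map_sum, map_mul]
    refine Finset.sum_congr rfl fun x _ => ?_
    have h3 : χ⁻¹ x = star (χ x) := by rw [← MulChar.star_eq_inv, MulChar.star_apply]
    rw [h3, AddChar.inv_apply', AddChar.inv_apply_eq_conj]
    rfl
  rw [h2, Complex.mul_conj, Complex.normSq_eq_norm_sq] at h1
  exact_mod_cast h1

lemma gauss_one {ψ : AddChar k ℂ} (hψ : ψ ≠ 1) : gaussSum (1 : MulChar k ℂ) ψ = -1 := by
  classical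
  rw [gaussSum]
  have h1 : ∀ x : k, (1 : MulChar k ℂ) x * ψ x = ψ x - if x = 0 then 1 else 0 := by
    intro x
    by_cases hx : x = 0
    · rw [hx, MulChar.map_zero]
      simp
    · rw [MulChar.one_apply (isUnit_iff_ne_zero.2 hx), if_neg hx]
      ring
  rw [Finset.sum_congr rfl fun x _ => h1 x, Finset.sum_sub_distrib,
    AddChar.sum_eq_zero_of_ne_one hψ]
  simp

end

end Pool.Agent.N214.HB
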