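import Pool.Agent.Y145.DW.HD

/-!
# Character sums on the varieties `∑ v_i = 0`, `∏ v_i ^ e_i = t`, and their sums over `t = u ^ d`
-/

set_option autoImplicit false
set_option linter.unusedSectionVars false

namespace Pool.Agent.N214.HB

open Finset
open Pool.Agent.Y145.KS (psi psi_apply psi_ne_one)
open Pool.Agent.Y145.DW (hasse_davenport)

section field

variable {E : Type} [Field E] [Fintype E] [DecidableEq E] {ι : Type} [Fintype ι]

lemma sum_units (f : E → ℂ) (hf : f 0 = 0) : ∑ x : Eˣ, f x = ∑ x : E, f x := by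
  classical
  refine Finset.sum_of_injOn (fun x : Eˣ => (x : E)) Units.val_injective.injOn
    (fun _ _ => by simp) (fun y _ hy => ?_) (fun _ _ => rfl)
  by_cases h : y = 0
  · rw [h, hf]
  · exact absurd ⟨Units.mk0 y h, by simp, rfl⟩ hy

/-- The Jacobi sum of the characters `χ i`: the sum of `∏ χ i (v i)` over the points of the
hyperplane `∑ v i = 0` in the torus, divided by `q - 1`. -/
noncomputable def jac (χ : ι → MulChar E ℂ) : ℂ :=
  open Classical in
  (∑ v : ι → Eˣ, if ∑ i, (v i : E) = 0 then ∏ i, χ i (v i) else 0) / (Fintype.card E - 1)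

/-- Minus the sum of `∏ χ i (v i)` over the points `v` of the torus with `∑ v i = 0` and
`∏ (v i) ^ (e i) = t`, divided by `q - 1`. -/
noncomputable def trAt (χ : ι → MulChar E ℂ) (e : ι → ℤ) (t : Eˣ) : ℂ :=
  open Classical in
  -(∑ v : ι → Eˣ, if ∑ i, (v i : E) = 0 ∧ ∏ i, (v i) ^ (e i) = t then ∏ i, χ i (v i) else 0) /
    (Fintype.card E - 1)

lemma q_sub_ne : (Fintype.card E : ℂ) - 1 ≠ 0 := by
  have h : 1 < Fintype.card E := Fintype.one_lt_card
  intro h1
  have h2 : (Fintype.card E : ℂ) = 1 := sub_eq_zero.1 h1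
  have h3 : Fintype.card E = 1 := by exact_mod_cast h2
  omega

lemma q_ne : (Fintype.card E : ℂ) ≠ 0 := by
  have : 0 < Fintype.card E := Fintype.card_pos
  exact_mod_cast this.ne'

lemma sum_psi {ψ : AddChar E ℂ} (hψ : ψ ≠ 1) (c : E) :
    ∑ y : E, ψ (y * c) = if c = 0 then (Fintype.card E : ℂ) else 0 := by
  classical
  have hp : ψ.IsPrimitive := AddChar.IsPrimitive.of_ne_one hψ
  have h := AddChar.sum_mulShift c hp
  rw [h]
  split_ifs <;> simp

lemma gauss_units (χ : MulChar E ℂ) (ψ : AddChar E ℂ) (c : Eˣ) :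
    ∑ x : Eˣ, χ x * ψ (c * x) = χ⁻¹ c * gaussSum χ ψ := by
  rw [← gaussSum_mulShift_eq, gaussSum]
  exact sum_units (fun x => χ x * ψ (c * x)) (by rw [MulChar.map_zero, zero_mul])

/-- **Jacobi sums and Gauss sums.** -/
theorem jac_eq (χ : ι → MulChar E ℂ) {ψ : AddChar E ℂ} (hψ : ψ ≠ 1) (hprod : ∏ i, χ i = 1)
    (hne : ∃ i, χ i ≠ 1) : jac χ = (∏ i, gaussSum (χ i) ψ) / Fintype.card E := by
  classical
  have h1 : ∀ v : ι → Eˣ, (Fintype.card E : ℂ) *
      (if ∑ i, (v i : E) = 0 then ∏ i, χ i (v i) else 0)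
      = ∑ y : E, ∏ i, (χ i (v i) * ψ (y * v i)) := by
    intro v
    have h2 : ∀ y : E, ∏ i, (χ i (v i) * ψ (y * v i))
        = (∏ i, χ i (v i)) * ψ (y * ∑ i, (v i : E)) := by
      intro y
      rw [Finset.prod_mul_distrib, Finset.mul_sum]
      congr 1
      induction (Finset.univ : Finset ι) using Finset.induction_on with
      | empty => simp
      | insert a s ha ih => rw [Finset.prod_insert ha, Finset.sum_insert ha,
          AddChar.map_add_eq_mul, ih]
    simp only [h2]
    rw [← Finset.mul_sum, sum_psi hψ]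
    split_ifs <;> ring
  have h2 : (Fintype.card E : ℂ) * ∑ v : ι → Eˣ,
      (if ∑ i, (v i : E) = 0 then ∏ i, χ i (v i) else 0)
      = ∑ y : E, ∏ i, ∑ x : Eˣ, χ i x * ψ (y * x) := by
    rw [Finset.mul_sum, Finset.sum_congr rfl fun v _ => h1 v, Finset.sum_comm]
    refine Finset.sum_congr rfl fun y _ => ?_
    rw [Finset.prod_univ_sum, Fintype.piFinset_univ]
  have h3 : ∑ y : E, ∏ i, ∑ x : Eˣ, χ i x * ψ (y * x)
      = ((Fintype.card E : ℂ) - 1) * ∏ i, gaussSum (χ i) ψ := by
    rw [← sum_units]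
    · have h4 : ∀ y : Eˣ, ∏ i, ∑ x : Eˣ, χ i x * ψ (y * x) = ∏ i, gaussSum (χ i) ψ := by
        intro y
        rw [Finset.prod_congr rfl fun i _ => gauss_units (χ i) ψ y, Finset.prod_mul_distrib]
        have h5 : ∏ i, (χ i)⁻¹ (y : E) = 1 := by
          have h6 : ∏ i, (χ i) (y : E) = 1 := by
            have h7 : ∀ s : Finset ι, (∏ i ∈ s, χ i) (y : E) = ∏ i ∈ s, (χ i) (y : E) := by
              intro s
              induction s using Finset.induction_on with
              | empty => simp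
              | insert a s ha ih => rw [Finset.prod_insert ha, Finset.prod_insert ha,
                  MulChar.mul_apply, ih]
            rw [← h7, hprod, MulChar.one_apply_coe]
          rw [Finset.prod_congr rfl fun i _ => MulChar.inv_apply_eq_inv' (χ i) (y : E),
            Finset.prod_inv_distrib, h6, inv_one]
        rw [h5, one_mul]
      rw [Finset.sum_congr rfl fun y _ => h4 y, Finset.sum_const, Finset.card_univ,
        Fintype.card_units, nsmul_eq_mul, Nat.cast_sub Fintype.card_pos, Nat.cast_one]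
    · obtain ⟨i, hi⟩ := hne
      refine Finset.prod_eq_zero (Finset.mem_univ i) ?_
      simp only [zero_mul, AddChar.map_zero_eq_one, mul_one]
      rw [sum_units (fun x => χ i x) (MulChar.map_zero _)]
      exact MulChar.sum_eq_zero_of_ne_one hi
  unfold jac
  rw [div_eq_div_iff q_sub_ne q_ne, mul_comm, h2, h3]
  ring

/-- The number of `d`-th roots, expressed by the powers of a character of order `d`. -/
lemma card_roots {d : ℕ} (hd0 : 0 < d) (hd : d ∣ Fintype.card E - 1) (ρ : MulChar E ℂ)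
    (hρ : orderOf ρ = d) (t : Eˣ) :
    open Classical in
    ∑ u : Eˣ, (if t = u ^ d then (1 : ℂ) else 0) = ∑ j ∈ range d, ρ t ^ j := by
  classical
  obtain ⟨g, hg⟩ := IsCyclic.exists_generator (α := Eˣ)
  have hρd : ∀ x : Eˣ, ρ x ^ d = 1 := by
    intro x
    rw [← MulChar.pow_apply_coe, ← hρ, pow_orderOf_eq_one, MulChar.one_apply_coe]
  by_cases h : ∃ u : Eˣ, t = u ^ d
  · obtain ⟨u0, rfl⟩ := h
    have h1 : ρ ((u0 ^ d : Eˣ) : E) = 1 := by
      rw [Units.val_pow_eq_pow_val, map_pow, hρd]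
    rw [h1]
    simp only [one_pow, Finset.sum_const, Finset.card_range, nsmul_eq_mul, mul_one]
    rw [← Equiv.sum_comp (Equiv.mulLeft u0)]
    have h2 : ∀ w : Eˣ, (u0 ^ d = (Equiv.mulLeft u0) w ^ d ↔ w ^ d = 1) := by
      intro w
      rw [Equiv.coe_mulLeft, mul_pow]
      constructor
      · intro h3
        have h4 : u0 ^ d * 1 = u0 ^ d * w ^ d := by rwa [mul_one]
        exact (mul_left_cancel h4).symm
      · intro h3
        rw [h3, mul_one]
    simp only [h2]
    rw [Finset.sum_ite, Finset.sum_const_zero, add_zero, Finset.sum_const, nsmul_eq_mul, mul_one]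
    have h3 := IsCyclic.card_powMonoidHom_ker (G := Eˣ) d
    have h4 : Nat.card (powMonoidHom d : Eˣ →* Eˣ).ker = #{w : Eˣ | w ^ d = 1} := by
      rw [← Fintype.card_subtype, ← Nat.card_eq_fintype_card]
      exact Nat.card_congr (Equiv.subtypeEquivRight fun w => Iff.rfl)
    rw [← h4, h3, Nat.card_eq_fintype_card, Fintype.card_units, Nat.gcd_eq_right hd]
  · have h1 : ∑ u : Eˣ, (if t = u ^ d then (1 : ℂ) else 0) = 0 :=
      Finset.sum_eq_zero fun u _ => if_neg fun h2 => h ⟨u, h2⟩
    rw [h1]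
    have h2 : ρ t ≠ 1 := by
      intro h3
      apply h
      obtain ⟨j, hj⟩ := (Subgroup.mem_zpowers_iff.1 (hg t))
      set x := MulChar.equivToUnitHom ρ g with hx
      have hxo : orderOf x = d := by
        rw [← hρ]
        apply Nat.dvd_antisymm
        · apply orderOf_dvd_of_pow_eq_one
          apply Units.ext
          rw [Units.val_pow_eq_pow_val, hx, MulChar.coe_equivToUnitHom, Units.val_one, hρ, hρd]
        · apply orderOf_dvd_of_pow_eq_one
          ext y
          obtain ⟨l, hl⟩ := (Subgroup.mem_zpowers_iff.1 (hg y))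
          rw [MulChar.pow_apply_coe, MulChar.one_apply_coe]
          have h4 : (MulChar.equivToUnitHom ρ y) ^ orderOf x = 1 := by
            rw [← hl, map_zpow, ← hx, ← zpow_natCast, ← zpow_mul, mul_comm, zpow_mul, zpow_natCast,
              pow_orderOf_eq_one, one_zpow]
          have h5 := congrArg Units.val h4
          rw [Units.val_pow_eq_pow_val, MulChar.coe_equivToUnitHom, Units.val_one] at h5
          exact h5
      have h4 : x ^ j = 1 := by
        rw [hx, ← map_zpow, hj]
        apply Units.ext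
        rw [MulChar.coe_equivToUnitHom, h3, Units.val_one]
      have h5 := orderOf_dvd_iff_zpow_eq_one.2 h4
      rw [hxo] at h5
      obtain ⟨l, hl⟩ := h5
      refine ⟨g ^ l, ?_⟩
      rw [← hj, hl, mul_comm, zpow_mul, zpow_natCast]
    have h3 := geom_sum_mul (ρ (t : E)) d
    rw [hρd, sub_self] at h3
    rcases mul_eq_zero.1 h3 with h4 | h4
    · exact h4.symm
    · exact absurd (sub_eq_zero.1 h4) h2

lemma char_zpow (ρ : MulChar E ℂ) (n : ℤ) (x : Eˣ) :
    (ρ ^ n) (x : E) = (ρ (x : E)) ^ n := by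
  cases n with
  | ofNat n => simp only [Int.ofNat_eq_natCast, zpow_natCast, MulChar.pow_apply_coe]
  | negSucc n => rw [zpow_negSucc, zpow_negSucc, MulChar.inv_apply_eq_inv', MulChar.pow_apply_coe]

/-- **The sum of the traces over `t = u ^ d`.** -/
theorem sum_trAt (χ : ι → MulChar E ℂ) (e : ι → ℤ) {d : ℕ} (hd0 : 0 < d)
    (hd : d ∣ Fintype.card E - 1) (ρ : MulChar E ℂ) (hρ : orderOf ρ = d) :
    ∑ u : Eˣ, trAt χ e (u ^ d) = -∑ j ∈ range d, jac (fun i => χ i * ρ ^ ((j : ℤ) * e i)) := by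
  classical
  have h1 : ∀ v : ι → Eˣ, ∑ j ∈ range d, ∏ i, (χ i * ρ ^ ((j : ℤ) * e i)) (v i)
      = (∏ i, χ i (v i)) * ∑ u : Eˣ, (if ∏ i, (v i) ^ (e i) = u ^ d then (1 : ℂ) else 0) := by
    intro v
    rw [card_roots hd0 hd ρ hρ, Finset.mul_sum]
    refine Finset.sum_congr rfl fun j _ => ?_
    have h2 : ∏ i, (χ i * ρ ^ ((j : ℤ) * e i)) (v i : E)
        = (∏ i, χ i (v i)) * ∏ i, (ρ (v i : E)) ^ ((j : ℤ) * e i) := by
      rw [← Finset.prod_mul_distrib]
      refine Finset.prod_congr rfl fun i _ => ?_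
      rw [MulChar.mul_apply, char_zpow]
    rw [h2]
    congr 1
    have h3 : ρ ((∏ i, (v i) ^ (e i) : Eˣ) : E) = ∏ i, (ρ (v i : E)) ^ (e i) := by
      have h4 := map_prod (MulChar.equivToUnitHom ρ) (fun i => (v i) ^ (e i)) Finset.univ
      have h5 := congrArg Units.val h4
      rw [MulChar.coe_equivToUnitHom] at h5
      rw [h5, Units.coe_prod]
      refine Finset.prod_congr rfl fun i _ => ?_
      rw [map_zpow, Units.val_zpow_eq_zpow_val, MulChar.coe_equivToUnitHom]
    rw [h3, ← Finset.prod_pow]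
    refine Finset.prod_congr rfl fun i _ => ?_
    rw [mul_comm, zpow_mul, zpow_natCast]
  have h2 : ∀ u : Eˣ, trAt χ e (u ^ d) = -(∑ v : ι → Eˣ, (if ∑ i, (v i : E) = 0 then
      (∏ i, χ i (v i)) * (if ∏ i, (v i) ^ (e i) = u ^ d then (1 : ℂ) else 0) else 0)) /
      (Fintype.card E - 1) := by
    intro u
    rw [trAt]
    congr 2
    refine Finset.sum_congr rfl fun v _ => ?_
    by_cases h3 : ∑ i, (v i : E) = 0
    · by_cases h4 : ∏ i, (v i) ^ (e i) = u ^ d
      · rw [if_pos ⟨h3, h4⟩, if_pos h3, if_pos h4, mul_one]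
      · rw [if_neg (fun h => h4 h.2), if_pos h3, if_neg h4, mul_zero]
    · rw [if_neg (fun h => h3 h.1), if_neg h3]
  rw [Finset.sum_congr rfl fun u _ => h2 u, ← Finset.sum_div, Finset.sum_neg_distrib,
    Finset.sum_comm]
  have h3 : ∑ j ∈ range d, jac (fun i => χ i * ρ ^ ((j : ℤ) * e i))
      = (∑ v : ι → Eˣ, if ∑ i, (v i : E) = 0 then
        ∑ j ∈ range d, ∏ i, (χ i * ρ ^ ((j : ℤ) * e i)) (v i) else 0) / (Fintype.card E - 1) := by
    simp only [jac]
    rw [← Finset.sum_div, Finset.sum_comm]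
    congr 1
    refine Finset.sum_congr rfl fun v _ => ?_
    split_ifs
    · rfl
    · simp
  rw [h3, neg_div]
  congr 2
  refine Finset.sum_congr rfl fun v _ => ?_
  split_ifs with h4
  · rw [h1 v, Finset.mul_sum]
  · simp

end field

end Pool.Agent.N214.HB
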